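import Pool.Agent.Lib.H18P.P5

/-!
# Goldbach graphs: a fixed thin exceptional set, rich vertices, and Q1 under a weak quantitative form of
Goldbach's conjecture

For all `0 < a < b < 1/2` there is a fixed set `E` of natural numbers, with at most `x exp (-(log x)^a)`
elements up to `x`, such that every even number outside `E` is rich, and in all large Goldbach graphs
`G_n` and near Goldbach graphs `G(n)` any two rich vertices are at distance at most `31`. A vertex `u` is
rich if it has at least `m exp (-(log m)^b)` neighbours in the graph with some index `m ≤ n`, or at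
least `u exp (-(log u)^b)` representations as a sum of two primes (`Pool.Agent.Lib.H18P.Rich`). More
precisely there is a core of pairwise distances at most `7` (`Pool.Agent.Lib.H18P.Core`).
Consequently Q1 holds if every large even number has at least `u exp (-(log u)^b)` representations as a
sum of two primes, and every even `u ≥ 8` is the sum of two different primes.
-/

namespace Pool.Agent.Results.MP_443e5f_co.RichVertices

open Pool.Agent.Goldbach Pool.Agent.Lib.H18P

theorem result (a b : ℝ) (ha : 0 < a) (hab : a < b) (hb : b < 1 / 2) :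
    ∃ (E : Set ℕ) (n0 x0 : ℕ),
      (∀ x : ℕ, x0 ≤ x → ((E ∩ Set.Icc 0 x).ncard : ℝ) ≤ x * Real.exp (-(Real.log x) ^ a)) ∧
      (∀ u : ℕ, Even u → u ∉ E → n0 ≤ u ∧ (u : ℝ) * Real.exp (-(Real.log u) ^ b) ≤ reps u) ∧
      (∀ n : ℕ, n0 ≤ n → (∃ K, Core goldbachVertices goldbachGraph b n0 n K ∧
          ∀ u : goldbachVertices n, (u : ℕ) = 0 ∨ (∃ p : ℕ, p.Prime ∧ Odd p ∧ (u : ℕ) = 2 * p) →
            ∃ z ∈ K, (goldbachGraph n).edist u z ≤ 2) ∧
        ∃ K, Core evenVertices nearGoldbachGraph b n0 n K) ∧
      (∀ n : ℕ, n0 ≤ n →
        (∀ u v : goldbachVertices n, Rich goldbachVertices goldbachGraph b n0 n u →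
          Rich goldbachVertices goldbachGraph b n0 n v → (goldbachGraph n).edist u v ≤ 31) ∧
        (∀ u v : evenVertices n, Rich evenVertices nearGoldbachGraph b n0 n u →
          Rich evenVertices nearGoldbachGraph b n0 n v → (nearGoldbachGraph n).edist u v ≤ 31)) ∧
      (QuantGoldbach b → ∃ C N : ℕ, ∀ n : ℕ, N ≤ n →
        (∀ u v : goldbachVertices n, (goldbachGraph n).edist u v ≤ C) ∧
        (∀ u v : evenVertices n, (nearGoldbachGraph n).edist u v ≤ C)) :=
  final a b ha hab hb

end Pool.Agent.Results.MP_443e5f_co.RichVertices
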